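import Mathlib
import Pool.Agent.L0h99.MG.Unif

/-!
# Embedding finite matrices in `ℓ¹` and the decoupled Markov group theorem
-/

set_option autoImplicit false
open Set Filter Topology BoundedContinuousFunction H520R3.MG

namespace Pool.Agent.L0h99.MG

variable {d : ℕ}

/-- coordinate functional -/
noncomputable def crd (j : ℕ) : E →L[ℝ] ℝ :=
  LinearMap.mkContinuous
    { toFun := fun x => x j
      map_add' := fun x y => by rw [lp.coeFn_add, Pi.add_apply]
      map_smul' := fun a x => by rw [lp.coeFn_smul, Pi.smul_apply, RingHom.id_apply] } 1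
    (fun x => by
      rw [one_mul]
      change |x j| ≤ ‖x‖
      rw [norm_eq]
      exact (summ x).le_tsum j (fun _ _ => abs_nonneg _))

theorem crd_apply (j : ℕ) (x : E) : crd j x = x j := rfl

theorem sum_abs_le (x : E) (s : Finset ℕ) : ∑ j ∈ s, |x j| ≤ ‖x‖ := by
  rw [norm_eq]
  exact (summ x).sum_le_tsum s (fun _ _ => abs_nonneg _)

/-- the matrix `X` acting on the first `d` coordinates of `ℓ¹`, the identity on the others -/
noncomputable def emb (X : Matrix (Fin d) (Fin d) ℝ) : E →L[ℝ] E :=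
  ContinuousLinearMap.id ℝ E +
    ∑ i : Fin d, ∑ j : Fin d, ((X - 1) i j) • (crd (j : ℕ)).smulRight (e (i : ℕ))

theorem emb_apply (X : Matrix (Fin d) (Fin d) ℝ) (x : E) :
    emb X x = x + ∑ i : Fin d, ∑ j : Fin d, ((X - 1) i j * x j) • e (i : ℕ) := by
  unfold emb
  rw [ContinuousLinearMap.add_apply, ContinuousLinearMap.sum_apply]
  congr 1
  refine Finset.sum_congr rfl fun i _ => ?_
  rw [ContinuousLinearMap.sum_apply]
  refine Finset.sum_congr rfl fun j _ => ?_
  rw [ContinuousLinearMap.smul_apply, ContinuousLinearMap.smulRight_apply, crd_apply, smul_smul]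

theorem e_apply (i k : ℕ) : e i k = if k = i then 1 else 0 := by
  split_ifs with h
  · rw [h, e_self]
  · exact e_ne h

theorem emb_coord (X : Matrix (Fin d) (Fin d) ℝ) (x : E) (k : ℕ) :
    (emb X x) k = x k + ∑ i : Fin d, ∑ j : Fin d, ((X - 1) i j * x j) * (if k = i then 1 else 0) := by
  have h : crd k (emb X x) = crd k x + ∑ i : Fin d, ∑ j : Fin d, ((X - 1) i j * x j) * crd k (e i) := by
    rw [emb_apply, map_add, map_sum]
    congr 1
    refine Finset.sum_congr rfl fun i _ => ?_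
    rw [map_sum]
    refine Finset.sum_congr rfl fun j _ => ?_
    rw [map_smul, smul_eq_mul]
  simpa only [crd_apply, e_apply] using h

theorem emb_coord_lt (X : Matrix (Fin d) (Fin d) ℝ) (x : E) (k : Fin d) :
    (emb X x) (k : ℕ) = ∑ j : Fin d, X k j * x j := by
  rw [emb_coord, Finset.sum_eq_single k]
  · simp only [if_true, mul_one, Matrix.sub_apply, sub_mul, Finset.sum_sub_distrib]
    have : ∑ j : Fin d, (1 : Matrix (Fin d) (Fin d) ℝ) k j * x j = x k := by
      rw [Finset.sum_eq_single k]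
      · simp
      · intro j _ hj
        rw [Matrix.one_apply_ne (Ne.symm hj), zero_mul]
      · simp
    rw [this]; ring
  · intro i _ hi
    refine Finset.sum_eq_zero fun j _ => ?_
    rw [if_neg (fun h => hi (Fin.ext h.symm)), mul_zero]
  · simp

theorem emb_coord_ge (X : Matrix (Fin d) (Fin d) ℝ) (x : E) (k : ℕ) (hk : d ≤ k) :
    (emb X x) k = x k := by
  rw [emb_coord]
  have : ∑ i : Fin d, ∑ j : Fin d, ((X - 1) i j * x j) * (if k = (i : ℕ) then (1 : ℝ) else 0) = 0 := by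
    refine Finset.sum_eq_zero fun i _ => Finset.sum_eq_zero fun j _ => ?_
    rw [if_neg (fun h => absurd i.2 (by omega)), mul_zero]
  rw [this, add_zero]

theorem emb_one : emb (1 : Matrix (Fin d) (Fin d) ℝ) = ContinuousLinearMap.id ℝ E := by
  unfold emb
  simp

theorem emb_mul (X Y : Matrix (Fin d) (Fin d) ℝ) : emb (X * Y) = (emb X).comp (emb Y) := by
  ext x : 1
  apply lp.ext
  funext k
  change (emb (X * Y) x) k = (emb X (emb Y x)) k
  by_cases hk : k < d
  · rw [emb_coord_lt (X * Y) x ⟨k, hk⟩, emb_coord_lt X (emb Y x) ⟨k, hk⟩]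
    simp only [emb_coord_lt, Matrix.mul_apply, Finset.sum_mul, Finset.mul_sum]
    rw [Finset.sum_comm]
    refine Finset.sum_congr rfl fun i _ => Finset.sum_congr rfl fun j _ => ?_
    ring
  · rw [emb_coord_ge _ _ k (by omega), emb_coord_ge _ _ k (by omega), emb_coord_ge _ _ k (by omega)]

theorem continuous_emb : Continuous (emb : Matrix (Fin d) (Fin d) ℝ → (E →L[ℝ] E)) := by
  unfold emb
  refine continuous_const.add (continuous_finset_sum _ fun i _ => continuous_finset_sum _ fun j _ => ?_)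
  have h1 : Continuous fun X : Matrix (Fin d) (Fin d) ℝ => X i j :=
    continuous_id.matrix_elem i j
  have h2 : Continuous fun X : Matrix (Fin d) (Fin d) ℝ => (X - 1) i j := h1.sub continuous_const
  exact h2.smul continuous_const

theorem emb_norm_le (X : Matrix (Fin d) (Fin d) ℝ) {M : ℝ} (hM : 1 ≤ M)
    (h : ∀ j : Fin d, ∑ i : Fin d, |X i j| ≤ M) (x : E) : ‖emb X x‖ ≤ M * ‖x‖ := by
  refine opNorm_le (fun k => ?_) x
  by_cases hk : k < d
  · have h1 : emb X (e k) = ∑ i : Fin d, X i ⟨k, hk⟩ • e (i : ℕ) := by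
      have h0 : emb X (e k) = e k + ∑ i : Fin d, ∑ j : Fin d, ((X - 1) i j * e k j) • e (i : ℕ) :=
        emb_apply X (e k)
      rw [h0]
      have h2 : ∀ i : Fin d, ∑ j : Fin d, ((X - 1) i j * e k j) • e (i : ℕ) =
          ((X - 1) i ⟨k, hk⟩) • e (i : ℕ) := by
        intro i
        rw [Finset.sum_eq_single ⟨k, hk⟩]
        · rw [show (((⟨k, hk⟩ : Fin d) : ℕ)) = k from rfl, e_self, mul_one]
        · intro j _ hj
          rw [e_ne (fun h => hj (Fin.ext h)), mul_zero, zero_smul]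
        · simp
      rw [Finset.sum_congr rfl fun i _ => h2 i]
      simp only [Matrix.sub_apply, sub_smul, Finset.sum_sub_distrib]
      have h3 : ∑ i : Fin d, ((1 : Matrix (Fin d) (Fin d) ℝ) i ⟨k, hk⟩) • e (i : ℕ) = e k := by
        rw [Finset.sum_eq_single ⟨k, hk⟩]
        · simp
        · intro j _ hj
          rw [Matrix.one_apply_ne hj, zero_smul]
        · simp
      rw [h3]; abel
    rw [h1]
    refine (norm_sum_le _ _).trans ?_
    refine le_trans (le_of_eq ?_) (h ⟨k, hk⟩)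
    refine Finset.sum_congr rfl fun i _ => ?_
    rw [norm_smul, norm_e, mul_one, Real.norm_eq_abs]
  · have h1 : emb X (e k) = e k := by
      apply lp.ext
      funext l
      by_cases hl : l < d
      · have := emb_coord_lt X (e k) ⟨l, hl⟩
        rw [show (((⟨l, hl⟩ : Fin d) : ℕ)) = l from rfl] at this
        rw [this, e_ne (by omega)]
        refine Finset.sum_eq_zero fun j _ => ?_
        rw [e_ne (by have := j.2; omega), mul_zero]
      · exact emb_coord_ge _ _ l (by omega)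
    rw [h1, norm_e]
    exact hM

/-- column stochastic matrices give Markov operators -/
theorem emb_mk (X : Matrix (Fin d) (Fin d) ℝ) (h0 : ∀ i j, 0 ≤ X i j)
    (h1 : ∀ j : Fin d, ∑ i : Fin d, X i j = 1) : Mk (emb X) := by
  have hpos : ∀ x : E, (∀ n, 0 ≤ x n) → ∀ n, 0 ≤ (emb X x) n := by
    intro x hx n
    by_cases hn : n < d
    · rw [emb_coord_lt X x ⟨n, hn⟩]
      exact Finset.sum_nonneg fun j _ => mul_nonneg (h0 _ _) (hx _)
    · rw [emb_coord_ge X x n (by omega)]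
      exact hx n
  refine ⟨hpos, fun x hx => ?_⟩
  have hn : ∀ y : E, (∀ n, 0 ≤ y n) → ‖y‖ = pairL 1 y := by
    intro y hy
    rw [norm_eq, pairL_apply]
    refine tsum_congr fun n => ?_
    rw [abs_of_nonneg (hy n), BoundedContinuousFunction.coe_one, Pi.one_apply, mul_one]
  rw [hn _ (hpos x hx), hn x hx, emb_apply, map_add, map_sum]
  have h2 : ∑ i : Fin d, pairL 1 (∑ j : Fin d, ((X - 1) i j * x j) • e (i : ℕ)) = 0 := by
    have h3 : ∀ i : Fin d, pairL 1 (∑ j : Fin d, ((X - 1) i j * x j) • e (i : ℕ)) =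
        ∑ j : Fin d, (X - 1) i j * x j := by
      intro i
      rw [map_sum]
      refine Finset.sum_congr rfl fun j _ => ?_
      rw [map_smul, pairL_e, BoundedContinuousFunction.coe_one, Pi.one_apply, smul_eq_mul, mul_one]
    rw [Finset.sum_congr rfl fun i _ => h3 i, Finset.sum_comm]
    refine Finset.sum_eq_zero fun j _ => ?_
    rw [← Finset.sum_mul]
    have h4 : ∑ i : Fin d, (X - 1) i j = 0 := by
      simp only [Matrix.sub_apply, Finset.sum_sub_distrib, h1 j]
      have : ∑ i : Fin d, (1 : Matrix (Fin d) (Fin d) ℝ) i j = 1 := by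
        rw [Finset.sum_eq_single j]
        · simp
        · intro i _ hi
          exact Matrix.one_apply_ne hi
        · simp
      rw [this, sub_self]
    rw [h4, zero_mul]
  rw [h2, add_zero]

attribute [local instance] Matrix.linftyOpNormedRing Matrix.linftyOpNormedAlgebra

theorem exp_add_smul (Q : Matrix (Fin d) (Fin d) ℝ) (s t : ℝ) :
    NormedSpace.exp ((s + t) • Q) = NormedSpace.exp (s • Q) * NormedSpace.exp (t • Q) := by
  rw [add_smul]
  exact Matrix.exp_add_of_commute _ _ (((Commute.refl Q).smul_left s).smul_right t)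

/-- the semigroup on `ℓ¹` -/
noncomputable def Tq (Q : Matrix (Fin d) (Fin d) ℝ) (t : NNReal) : E →L[ℝ] E :=
  emb (NormedSpace.exp ((t : ℝ) • Q))

theorem Tq_zero (Q : Matrix (Fin d) (Fin d) ℝ) : Tq Q 0 = ContinuousLinearMap.id ℝ E := by
  unfold Tq
  rw [NNReal.coe_zero, zero_smul, NormedSpace.exp_zero, emb_one]

theorem Tq_add (Q : Matrix (Fin d) (Fin d) ℝ) (s t : NNReal) :
    Tq Q (s + t) = (Tq Q s).comp (Tq Q t) := by
  unfold Tq
  rw [NNReal.coe_add, exp_add_smul, emb_mul]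

theorem continuous_expsmul (Q : Matrix (Fin d) (Fin d) ℝ) :
    Continuous fun t : ℝ => NormedSpace.exp (t • Q) :=
  NormedSpace.exp_continuous.comp (continuous_id.smul continuous_const)

theorem Tq_cont (Q : Matrix (Fin d) (Fin d) ℝ) : Continuous (Tq Q) :=
  continuous_emb.comp ((continuous_expsmul Q).comp NNReal.continuous_coe)

theorem Tq_msg (Q : Matrix (Fin d) (Fin d) ℝ)
    (h : ∀ t : ℝ, 0 ≤ t → (∀ i j : Fin d, 0 ≤ NormedSpace.exp (t • Q) i j) ∧
      (∀ j : Fin d, ∑ i : Fin d, NormedSpace.exp (t • Q) i j = 1)) : MSG (Tq Q) where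
  zero := Tq_zero Q
  add := Tq_add Q
  cont := fun x => (Tq_cont Q).clm_apply continuous_const
  mkv := fun t => emb_mk _ (h t t.2).1 (h t t.2).2
  bij := by
    have h1 : (Tq Q 1).comp (emb (NormedSpace.exp ((-1 : ℝ) • Q))) = ContinuousLinearMap.id ℝ E := by
      unfold Tq
      rw [NNReal.coe_one, ← emb_mul, ← exp_add_smul, add_neg_cancel, zero_smul,
        NormedSpace.exp_zero, emb_one]
    have h2 : (emb (NormedSpace.exp ((-1 : ℝ) • Q))).comp (Tq Q 1) = ContinuousLinearMap.id ℝ E := by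
      unfold Tq
      rw [NNReal.coe_one, ← emb_mul, ← exp_add_smul, neg_add_cancel, zero_smul,
        NormedSpace.exp_zero, emb_one]
    refine Function.bijective_iff_has_inverse.2 ⟨emb (NormedSpace.exp ((-1 : ℝ) • Q)), ?_, ?_⟩
    · intro x
      exact DFunLike.congr_fun h2 x
    · intro x
      exact DFunLike.congr_fun h1 x

theorem Tq_lower (Q : Matrix (Fin d) (Fin d) ℝ) {M : ℝ} (hM : 1 ≤ M)
    (hQ : ∀ j : Fin d, ∑ i : Fin d, |NormedSpace.exp (-Q) i j| ≤ M)
    (h : ∀ t : ℝ, 0 ≤ t → (∀ i j : Fin d, 0 ≤ NormedSpace.exp (t • Q) i j) ∧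
      (∀ j : Fin d, ∑ i : Fin d, NormedSpace.exp (t • Q) i j = 1)) :
    ∀ t : NNReal, t ≤ 2 → ∀ x : E, ‖x‖ ≤ (M * M) * ‖Tq Q t x‖ := by
  have hT := Tq_msg Q h
  have hcM : ∀ x : E, ‖x‖ ≤ M * ‖Tq Q 1 x‖ := by
    intro x
    have h2 : (emb (NormedSpace.exp ((-1 : ℝ) • Q))).comp (Tq Q 1) = ContinuousLinearMap.id ℝ E := by
      unfold Tq
      rw [NNReal.coe_one, ← emb_mul, ← exp_add_smul, neg_add_cancel, zero_smul,
        NormedSpace.exp_zero, emb_one]
    have h3 : emb (NormedSpace.exp ((-1 : ℝ) • Q)) (Tq Q 1 x) = x := DFunLike.congr_fun h2 x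
    have h4 := emb_norm_le (NormedSpace.exp ((-1 : ℝ) • Q)) hM (by simpa using hQ) (Tq Q 1 x)
    rwa [h3] at h4
  intro t ht x
  have h1 : Tq Q 2 = (Tq Q 1).comp (Tq Q 1) := by rw [← hT.add]; norm_num
  have h2 : Tq Q 2 = (Tq Q (2 - t)).comp (Tq Q t) := by rw [← hT.add, tsub_add_cancel_of_le ht]
  have h3 : ‖Tq Q 2 x‖ ≤ ‖Tq Q t x‖ := by
    rw [h2]
    exact (hT.mkv (2 - t)).contr _
  have h4 : Tq Q 2 x = Tq Q 1 (Tq Q 1 x) := by rw [h1]; rfl
  calc ‖x‖ ≤ M * ‖Tq Q 1 x‖ := hcM x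
    _ ≤ M * (M * ‖Tq Q 1 (Tq Q 1 x)‖) := mul_le_mul_of_nonneg_left (hcM _) (by linarith)
    _ = M * M * ‖Tq Q 2 x‖ := by rw [h4]; ring
    _ ≤ M * M * ‖Tq Q t x‖ := mul_le_mul_of_nonneg_left h3 (by nlinarith)

/-- the decoupled Markov group theorem -/
theorem decoupled (M : ℝ) (hM : 1 ≤ M) : ∃ C : ℝ, 0 ≤ C ∧
      ∀ d : ℕ, ∀ Q : Matrix (Fin d) (Fin d) ℝ,
        (∀ j : Fin d, ∑ i : Fin d, |NormedSpace.exp (-Q) i j| ≤ M) →
        (∀ t : ℝ, 0 ≤ t →
          (∀ i j : Fin d, 0 ≤ NormedSpace.exp (t • Q) i j) ∧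
          (∀ j : Fin d, ∑ i : Fin d, NormedSpace.exp (t • Q) i j = 1)) →
        ∀ j : Fin d, ∑ i : Fin d, |Q i j| ≤ C := by
  obtain ⟨l₀, hl₀⟩ := levels_unif (M * M) (by nlinarith)
  refine ⟨2 ^ (l₀ + 1), by positivity, fun d Q hQ h j => ?_⟩
  have hT := Tq_msg Q h
  have hlev := hl₀ (Tq Q) hT (Tq_lower Q hM hQ h)
  have hfast := Bd_fast hT hlev
  -- column sums of the difference quotients
  have key : ∀ k : ℕ, ∑ i : Fin d, |((hl (l₀ + 1 + k) : ℝ))⁻¹ *
      (NormedSpace.exp (((hl (l₀ + 1 + k) : NNReal) : ℝ) • Q) i j -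
        (1 : Matrix (Fin d) (Fin d) ℝ) i j)| ≤ 2 ^ (l₀ + 1) := by
    intro k
    set τ := hl (l₀ + 1 + k) with hτ
    have hτ0 : (0 : ℝ) < (τ : ℝ) := by exact_mod_cast hl_pos (l₀ + 1 + k)
    have e1 : ∀ i : Fin d, (Bd (Tq Q) (l₀ + 1 + k) (e j)) (i : ℕ) =
        (1 : Matrix (Fin d) (Fin d) ℝ) i j - NormedSpace.exp ((τ : ℝ) • Q) i j := by
      intro i
      have e2 : Bd (Tq Q) (l₀ + 1 + k) (e j) = e j - Tq Q τ (e j) := rfl
      rw [e2, lp.coeFn_sub, Pi.sub_apply]
      have e3 : (Tq Q τ (e j)) (i : ℕ) = NormedSpace.exp ((τ : ℝ) • Q) i j := by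
        unfold Tq
        rw [emb_coord_lt, Finset.sum_eq_single j]
        · rw [e_self, mul_one]
        · intro l _ hl
          rw [e_ne (fun h => hl (Fin.ext h)), mul_zero]
        · simp
      rw [e3, e_apply]
      congr 1
      by_cases hij : i = j
      · subst hij; simp
      · rw [if_neg (fun h => hij (Fin.ext h)), Matrix.one_apply_ne hij]
    have e2 : ∑ i : Fin d, |(Bd (Tq Q) (l₀ + 1 + k) (e j)) (i : ℕ)| ≤ (1 / 2) ^ k := by
      have h1 := sum_abs_le (Bd (Tq Q) (l₀ + 1 + k) (e j)) (Finset.range d)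
      rw [← Fin.sum_univ_eq_sum_range (fun i => |(Bd (Tq Q) (l₀ + 1 + k) (e j)) i|)] at h1
      refine h1.trans ?_
      refine ((Bd (Tq Q) (l₀ + 1 + k)).le_opNorm (e j)).trans ?_
      rw [norm_e, mul_one]
      exact hfast k
    have e3 : ∑ i : Fin d, |((τ : ℝ))⁻¹ * (NormedSpace.exp ((τ : ℝ) • Q) i j -
        (1 : Matrix (Fin d) (Fin d) ℝ) i j)| =
        (τ : ℝ)⁻¹ * ∑ i : Fin d, |(Bd (Tq Q) (l₀ + 1 + k) (e j)) (i : ℕ)| := by
      rw [Finset.mul_sum]
      refine Finset.sum_congr rfl fun i _ => ?_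
      rw [e1 i, abs_mul, abs_of_pos (inv_pos.2 hτ0), abs_sub_comm]
    rw [e3]
    have e4 : (τ : ℝ) = (1 / 2) ^ (l₀ + 1) * (1 / 2) ^ k := by rw [hτ, hl_real, pow_add]
    have e5 : (0 : ℝ) < (1 / 2) ^ k := by positivity
    calc (τ : ℝ)⁻¹ * ∑ i : Fin d, |(Bd (Tq Q) (l₀ + 1 + k) (e j)) (i : ℕ)|
        ≤ (τ : ℝ)⁻¹ * (1 / 2) ^ k := mul_le_mul_of_nonneg_left e2 (inv_pos.2 hτ0).le
      _ = 2 ^ (l₀ + 1) := by
        rw [e4, mul_inv, mul_assoc, inv_mul_cancel₀ e5.ne', mul_one, one_div, inv_pow, inv_inv]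
  -- passage to the limit
  have hder := hasDerivAt_exp_smul_const Q (0 : ℝ) (𝕂 := ℝ)
  rw [zero_smul, NormedSpace.exp_zero, one_mul] at hder
  have hτlim : Tendsto (fun k : ℕ => ((hl (l₀ + 1 + k) : NNReal) : ℝ)) atTop (𝓝[≠] 0) := by
    refine tendsto_nhdsWithin_iff.2 ⟨?_, Eventually.of_forall fun k => ?_⟩
    · have h1 : Tendsto (fun k : ℕ => ((1 : ℝ) / 2) ^ k) atTop (𝓝 0) :=
        tendsto_pow_atTop_nhds_zero_of_lt_one (by norm_num) (by norm_num)
      have h2 := h1.comp (tendsto_add_atTop_nat (l₀ + 1))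
      refine h2.congr fun k => ?_
      rw [hl_real, Function.comp_apply, add_comm k]
    · have : (0 : ℝ) < ((hl (l₀ + 1 + k) : NNReal) : ℝ) := by exact_mod_cast hl_pos _
      exact this.ne'
  have hlim : ∀ i : Fin d, Tendsto (fun k : ℕ => ((hl (l₀ + 1 + k) : ℝ))⁻¹ *
      (NormedSpace.exp (((hl (l₀ + 1 + k) : NNReal) : ℝ) • Q) i j -
        (1 : Matrix (Fin d) (Fin d) ℝ) i j)) atTop (𝓝 (Q i j)) := by
    intro i
    have h1 := (hasDerivAt_iff_tendsto_slope.1 hder).comp hτlim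
    have h2 : Continuous fun X : Matrix (Fin d) (Fin d) ℝ => X i j :=
      continuous_id.matrix_elem i j
    have h3 := (h2.tendsto Q).comp h1
    refine h3.congr fun k => ?_
    simp only [Function.comp_apply, slope, zero_smul, NormedSpace.exp_zero, sub_zero, vsub_eq_sub,
      Matrix.smul_apply, Matrix.sub_apply, smul_eq_mul]
    rfl
  refine le_of_tendsto (tendsto_finset_sum _ fun i _ => (hlim i).abs) ?_
  exact Eventually.of_forall key

end Pool.Agent.L0h99.MG
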